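import Pool.Agent.Helper73.KT.Ops

/-!
A block which is not in `pairs 1` has a unit eigenvalue.
-/

set_option autoImplicit false

open Matrix H77MT Pool.Agent.Helper79.KN Pool.Agent.Helper33.KN Pool.Agent.Helper73.KT

namespace Pool.Agent.Helper40.KT

section ten
variable {n K ι : Type} [Fintype n] [DecidableEq n] [Field K] [Fintype ι] [DecidableEq ι]

theorem ten_mul (A B : ι → Matrix n n K) (M : (ι → n) → K) :
    ten (fun a => A a * B a) M = ten A (ten B M) := by
  funext s
  simp only [ten, Finset.mul_sum]
  rw [Finset.sum_comm]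
  refine Finset.sum_congr rfl fun t _ => ?_
  have h : (∏ a, (A a * B a) (s a) (t a)) = ∑ u : ι → n, ∏ a, (A a (s a) (u a) * B a (u a) (t a)) := by
    simp only [Matrix.mul_apply]
    exact Finset.prod_univ_sum (fun _ => Finset.univ) _ |>.trans (by
      rw [Fintype.piFinset_univ])
  rw [h, Finset.sum_mul]
  refine Finset.sum_congr rfl fun u _ => ?_
  rw [Finset.prod_mul_distrib]
  ring

theorem ten_one (M : (ι → n) → K) : ten (fun _ => (1 : Matrix n n K)) M = M := by
  funext s
  simp only [ten]
  rw [Finset.sum_eq_single s]
  · simp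
  · intro t _ hts
    obtain ⟨a, ha⟩ : ∃ a, s a ≠ t a := by
      by_contra hcon
      push Not at hcon
      exact hts (funext hcon).symm
    have : ∏ a, (1 : Matrix n n K) (s a) (t a) = 0 := Finset.prod_eq_zero (Finset.mem_univ a) (by
      rw [Matrix.one_apply_ne ha])
    rw [this, zero_mul]
  · intro h
    exact absurd (Finset.mem_univ _) h

end ten

/-- the matrices on the two eigenspaces -/
def pr {X n K : Type} (G G' : X → Matrix n n K) (i : X × Bool) : Matrix n n K :=
  if i.2 then G i.1 else G' i.1

section ord
variable {K : Type} [Field K] [IsAlgClosed K]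

/-- the eigenvalues in a suitable order -/
theorem exists_order {N : ℕ} (G : Matrix (Fin N) (Fin N) K) (P Q : K → Prop) [DecidablePred P] [DecidablePred Q]
    (hPQ : ∀ z, P z → ¬ Q z) :
    ∃ d : Fin N → K, G.charpoly = ∏ j, (Polynomial.X - Polynomial.C (d j)) ∧
      (∀ j : Fin N, j.val < (G.charpoly.roots.filter P).card → P (d j)) ∧
      ∀ j : Fin N, N - (G.charpoly.roots.filter Q).card ≤ j.val → Q (d j) := by
  have hsp : G.charpoly = (G.charpoly.roots.map fun a => Polynomial.X - Polynomial.C a).prod := by
    have h1 := (IsAlgClosed.splits G.charpoly).eq_prod_roots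
    rw [G.charpoly_monic.leadingCoeff, Polynomial.C_1, one_mul] at h1
    exact h1
  have hcard : G.charpoly.roots.card = N := by
    have h1 := (Polynomial.splits_iff_card_roots.1 (IsAlgClosed.splits G.charpoly))
    rw [h1, Matrix.charpoly_natDegree_eq_dim, Fintype.card_fin]
  obtain ⟨r, hr⟩ : ∃ r, r = G.charpoly.roots := ⟨_, rfl⟩
  rw [← hr] at hsp hcard ⊢
  have hdec : r = r.filter P + ((r.filter fun z => ¬ P z).filter fun z => ¬ Q z) + r.filter Q := by
    have h1 : r.filter P + r.filter (fun z => ¬ P z) = r := Multiset.filter_add_not P r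
    have h2 : (r.filter fun z => ¬ P z).filter Q + (r.filter fun z => ¬ P z).filter (fun z => ¬ Q z) =
        r.filter fun z => ¬ P z := Multiset.filter_add_not Q _
    have h3 : (r.filter fun z => ¬ P z).filter Q = r.filter Q := by
      rw [Multiset.filter_filter]
      refine Multiset.filter_congr fun z _ => ⟨fun h => h.1, fun h => ⟨h, fun h' => hPQ z h' h⟩⟩
    rw [add_assoc, add_comm (((r.filter fun z => ¬ P z).filter fun z => ¬ Q z)), ← h3, h2, h1]
  obtain ⟨l, hl⟩ : ∃ l : List K, l = (r.filter P).toList ++
      (((r.filter fun z => ¬ P z).filter fun z => ¬ Q z)).toList ++ (r.filter Q).toList := ⟨_, rfl⟩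
  have hlr : (l : Multiset K) = r := by
    rw [hl, ← Multiset.coe_add, ← Multiset.coe_add, Multiset.coe_toList, Multiset.coe_toList, Multiset.coe_toList]
    exact hdec.symm
  have hlen : l.length = N := by
    rw [← hcard, ← hlr, Multiset.coe_card]
  subst hlen
  refine ⟨l.get, ?_, ?_, ?_⟩
  · rw [hsp, ← hlr, Multiset.map_coe, Multiset.prod_coe, ← List.prod_ofFn]
    congr 1
    conv_lhs => rw [← List.ofFn_get l]
    rw [List.map_ofFn]
    rfl
  · intro j hj
    subst hl
    have h1 : j.val < ((r.filter P).toList).length := by
      rw [Multiset.length_toList]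
      exact hj
    have h2 : j.val < ((r.filter P).toList ++
      (((r.filter fun z => ¬ P z).filter fun z => ¬ Q z)).toList).length :=
      lt_of_lt_of_le h1 (by simp)
    have h3 : (List.get _ j) = ((r.filter P).toList)[j.val] := by
      rw [List.get_eq_getElem, List.getElem_append_left h2, List.getElem_append_left h1]
    rw [h3]
    have h4 := List.getElem_mem h1
    rw [Multiset.mem_toList] at h4
    exact (Multiset.mem_filter.1 h4).2
  · intro j hj
    subst hl
    have h0 := j.isLt
    have h5 : ((r.filter P).toList ++
      (((r.filter fun z => ¬ P z).filter fun z => ¬ Q z)).toList ++ (r.filter Q).toList).length =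
      ((r.filter P).toList ++ (((r.filter fun z => ¬ P z).filter fun z => ¬ Q z)).toList).length +
        (r.filter Q).card := by
      rw [List.length_append, Multiset.length_toList (r.filter Q)]
    have h2 : ((r.filter P).toList ++
      (((r.filter fun z => ¬ P z).filter fun z => ¬ Q z)).toList).length ≤ j.val := by
      omega
    have h6 : j.val - ((r.filter P).toList ++
      (((r.filter fun z => ¬ P z).filter fun z => ¬ Q z)).toList).length < ((r.filter Q).toList).length := by
      rw [Multiset.length_toList]
      omega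
    have h3 : (List.get _ j) = ((r.filter Q).toList)[j.val - ((r.filter P).toList ++
      (((r.filter fun z => ¬ P z).filter fun z => ¬ Q z)).toList).length] := by
      rw [List.get_eq_getElem, List.getElem_append_right h2]
    rw [h3]
    have h4 := List.getElem_mem h6
    rw [Multiset.mem_toList] at h4
    exact (Multiset.mem_filter.1 h4).2

end ord

section tri
variable {K : Type} [Field K] {N : ℕ}

theorem tri_pow {T : Matrix (Fin N) (Fin N) K} (h : ∀ s t, t < s → T s t = 0) (k : ℕ) :
    (∀ s t, t < s → (T ^ k) s t = 0) ∧ ∀ s, (T ^ k) s s = T s s ^ k := by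
  induction k with
  | zero =>
    refine ⟨fun s t hst => ?_, fun s => ?_⟩
    · rw [pow_zero, Matrix.one_apply_ne (ne_of_gt hst)]
    · rw [pow_zero, pow_zero, Matrix.one_apply_eq]
  | succ k ih =>
    refine ⟨fun s t hst => ?_, fun s => ?_⟩
    · rw [pow_succ, Matrix.mul_apply]
      refine Finset.sum_eq_zero fun u _ => ?_
      rcases lt_or_ge u s with hu | hu
      · rw [ih.1 s u hu, zero_mul]
      · rw [h u t (lt_of_lt_of_le hst hu), mul_zero]
    · rw [pow_succ, Matrix.mul_apply, Finset.sum_eq_single s]
      · rw [ih.2, pow_succ]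
      · intro u _ hus
        rcases lt_or_gt_of_ne hus with hu | hu
        · rw [ih.1 s u hu, zero_mul]
        · rw [h u s hu, mul_zero]
      · intro h'
        exact absurd (Finset.mem_univ _) h'

theorem tri_dual {T T' : Matrix (Fin N) (Fin N) K} (h : ∀ s t, t < s → T s t = 0) {w : K} (hd : ∀ s, T s s ≠ 0)
    (hTT : Tᵀ * T' = w • (1 : Matrix (Fin N) (Fin N) K)) :
    (∀ s t, s < t → T' s t = 0) ∧ ∀ s, T s s * T' s s = w := by
  have key : ∀ s t, (∑ u, T u s * T' u t) = if s = t then w else 0 := by
    intro s t
    have h1 := congrFun (congrFun hTT s) t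
    rw [Matrix.mul_apply] at h1
    simp only [Matrix.transpose_apply, Matrix.smul_apply, smul_eq_mul, Matrix.one_apply] at h1
    rw [h1]
    split <;> simp
  have h1 : ∀ s t, s < t → T' s t = 0 := by
    have h2 : ∀ m : ℕ, ∀ s t : Fin N, s.val = m → s < t → T' s t = 0 := by
      intro m
      induction m using Nat.strong_induction_on with
      | _ m ih =>
        intro s t hs hst
        have h3 := key s t
        rw [if_neg (ne_of_lt hst), Finset.sum_eq_single s] at h3
        · exact (mul_eq_zero.1 h3).resolve_left (hd s)
        · intro u _ hus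
          rcases lt_or_gt_of_ne hus with hu | hu
          · rw [ih u.val (by rw [← hs]; exact hu) u t rfl (hu.trans hst), mul_zero]
          · rw [h u s hu, zero_mul]
        · intro h'
          exact absurd (Finset.mem_univ _) h'
    exact fun s t hst => h2 _ s t rfl hst
  refine ⟨h1, fun s => ?_⟩
  have h2 := key s s
  rw [if_pos rfl, Finset.sum_eq_single s] at h2
  · exact h2
  · intro u _ hus
    rcases lt_or_gt_of_ne hus with hu | hu
    · rw [h1 u s hu, mul_zero]
    · rw [h u s hu, zero_mul]
  · intro h'
    exact absurd (Finset.mem_univ _) h'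

end tri

end Pool.Agent.Helper40.KT
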