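import Pool.Agent.Helper40.KT.Unit

/-!
A block which is not in `pairs 1` has a unit eigenvalue: matrices.
-/

set_option autoImplicit false
set_option linter.unusedSectionVars false

open Matrix H77MT Pool.Agent.Helper79.KN Pool.Agent.Helper33.KN Pool.Agent.Helper73.KT

namespace Pool.Agent.Helper40.KT

section base
variable {K : Type} [Field K] {N : ℕ}

theorem roots_prod (d : Fin N → K) :
    (∏ j, (Polynomial.X - Polynomial.C (d j))).roots = Finset.univ.val.map d := by
  have h : (∏ j, (Polynomial.X - Polynomial.C (d j))) =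
      ((Finset.univ.val.map d).map fun a => Polynomial.X - Polynomial.C a).prod := by
    rw [Multiset.map_map]
    rfl
  rw [h, Polynomial.roots_multiset_prod_X_sub_C]

/-- the bases -/
theorem exists_base [IsAlgClosed K]
    (htri : ∀ (G : Matrix (Fin N) (Fin N) K) (d : Fin N → K),
      G.charpoly = ∏ j, (Polynomial.X - Polynomial.C (d j)) →
      ∃ B : GL (Fin N) K, (∀ s t, t < s → ((B⁻¹ : GL (Fin N) K) * G * B : Matrix (Fin N) (Fin N) K) s t = 0) ∧
        ∀ s, ((B⁻¹ : GL (Fin N) K) * G * B : Matrix (Fin N) (Fin N) K) s s = d s)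
    {G G' : Matrix (Fin N) (Fin N) K} {w : K} (hw0 : w ≠ 0) (hGG : Gᵀ * G' = w • (1 : Matrix (Fin N) (Fin N) K))
    {O : ValuationSubring K} (hw : O.valuation w < 1) :
    ∃ (P Q T T' : Matrix (Fin N) (Fin N) K), P * Q = 1 ∧ Q * P = 1 ∧ T = P * G * Q ∧ T' = Qᵀ * G' * Pᵀ ∧
      (∀ s t, t < s → T s t = 0) ∧ (∀ s t, s < t → T' s t = 0) ∧
      (∀ s : Fin N, s.val < (G.charpoly.roots.filter fun z => O.valuation z = 1).card → O.valuation (T s s) = 1) ∧
      ∀ s : Fin N, N - (G'.charpoly.roots.filter fun z => O.valuation z = 1).card ≤ s.val →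
        O.valuation (T' s s) = 1 := by
  obtain ⟨d, hd, hP, hQ⟩ := exists_order G (fun z => O.valuation z = 1) (fun z => O.valuation z = O.valuation w)
    (fun z hz hz' => by rw [hz] at hz'; exact absurd hw (by rw [← hz']; exact lt_irrefl _))
  obtain ⟨B, hB, hB'⟩ := htri G d hd
  obtain ⟨P, hPd⟩ : ∃ P : Matrix (Fin N) (Fin N) K, P = ((B⁻¹ : GL (Fin N) K) : Matrix (Fin N) (Fin N) K) := ⟨_, rfl⟩
  obtain ⟨Q, hQd⟩ : ∃ Q : Matrix (Fin N) (Fin N) K, Q = (B : Matrix (Fin N) (Fin N) K) := ⟨_, rfl⟩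
  rw [← hPd, ← hQd] at hB hB'
  have hPQ : P * Q = 1 := by
    rw [hPd, hQd, ← Units.val_mul, inv_mul_cancel, Units.val_one]
  have hQP : Q * P = 1 := by
    rw [hPd, hQd, ← Units.val_mul, mul_inv_cancel, Units.val_one]
  have hTT : (P * G * Q)ᵀ * (Qᵀ * G' * Pᵀ) = w • (1 : Matrix (Fin N) (Fin N) K) := by
    have e1 : Pᵀ * Qᵀ = 1 := by rw [← Matrix.transpose_mul, hQP, Matrix.transpose_one]
    have e2 : Qᵀ * Pᵀ = 1 := by rw [← Matrix.transpose_mul, hPQ, Matrix.transpose_one]
    calc (P * G * Q)ᵀ * (Qᵀ * G' * Pᵀ) = Qᵀ * (Gᵀ * (Pᵀ * Qᵀ) * G') * Pᵀ := by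
          simp only [Matrix.transpose_mul, Matrix.mul_assoc]
      _ = w • (1 : Matrix (Fin N) (Fin N) K) := by
          rw [e1, Matrix.mul_one, hGG, Matrix.mul_smul, Matrix.mul_one, Matrix.smul_mul, e2]
  have hdne : ∀ s, (P * G * Q) s s ≠ 0 := by
    have h1 : (P * G * Q).det ≠ 0 := by
      intro h0
      have h2 := congrArg Matrix.det hTT
      rw [Matrix.det_mul, Matrix.det_transpose, h0, zero_mul, Matrix.det_smul, Matrix.det_one, mul_one] at h2
      exact (pow_ne_zero _ hw0) h2.symm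
    have h3 : (P * G * Q).det = ∏ s, (P * G * Q) s s := Matrix.det_of_isUpperTriangular (fun s t hst => hB s t hst)
    intro s hs
    rw [h3] at h1
    exact h1 (Finset.prod_eq_zero (Finset.mem_univ s) hs)
  obtain ⟨h1, h2⟩ := tri_dual hB hdne hTT
  refine ⟨P, Q, P * G * Q, Qᵀ * G' * Pᵀ, hPQ, hQP, rfl, rfl, hB, h1, fun s hs => ?_, fun s hs => ?_⟩
  · rw [hB']
    exact hP s hs
  · have h4 : ∀ s, O.valuation ((Qᵀ * G' * Pᵀ) s s) = 1 ↔ O.valuation (d s) = O.valuation w := by
      intro s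
      have h5 := h2 s
      rw [hB'] at h5
      have h6 : O.valuation (d s) * O.valuation ((Qᵀ * G' * Pᵀ) s s) = O.valuation w := by
        rw [← map_mul, h5]
      have h7 : O.valuation (d s) ≠ 0 := by
        rw [Ne, map_eq_zero]
        intro h8
        exact hdne s ((hB' s).trans h8)
      constructor
      · intro h8
        rw [h8, mul_one] at h6
        exact h6
      · intro h8
        rw [← h8] at h6
        exact mul_left_cancel₀ h7 (h6.trans (mul_one _).symm)
    rw [h4]
    apply hQ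
    refine le_trans (le_of_eq ?_) hs
    congr 1
    have h8 : G'.charpoly = ∏ j, (Polynomial.X - Polynomial.C ((Qᵀ * G' * Pᵀ) j j)) := by
      have e2 : Pᵀ * Qᵀ = 1 := by rw [← Matrix.transpose_mul, hQP, Matrix.transpose_one]
      have h9 : (Qᵀ * G' * Pᵀ).charpoly = G'.charpoly := by
        rw [Matrix.charpoly_mul_comm, ← Matrix.mul_assoc, e2, Matrix.one_mul]
      rw [← h9, ← Matrix.charpoly_transpose, Matrix.charpoly_of_isUpperTriangular]
      · rfl
      · intro s t hst
        exact h1 t s hst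
    rw [h8, hd, roots_prod, roots_prod, Multiset.filter_map, Multiset.filter_map, Multiset.card_map, Multiset.card_map]
    congr 1
    refine Multiset.filter_congr fun s _ => ?_
    exact (h4 s).symm

end base

section main
variable {X K ι : Type} [Fintype X] [DecidableEq X] [Field K] [CharZero K] [IsAlgClosed K] [Fintype ι]
  [DecidableEq ι]

/-- initial and final segments -/
def Seg {N : ℕ} (i : ι → X × Bool) (s : ι → Fin N) : Prop :=
  ∀ a, ((i a).2 = true → (s a).val < mult i a) ∧ ((i a).2 = false → N - mult i a ≤ (s a).val)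

/-- tensors supported on the segments -/
def seg (K : Type) [Field K] (N : ℕ) (i : ι → X × Bool) : Submodule K ((ι → Fin N) → K) where
  carrier := {M | ∀ s, M s ≠ 0 → Seg i s}
  add_mem' := by
    intro M M' h h' s hs
    by_cases h1 : M s = 0
    · refine h' s fun h2 => hs ?_
      rw [Pi.add_apply, h1, h2, add_zero]
    · exact h s h1
  zero_mem' := fun s hs => absurd rfl hs
  smul_mem' := by
    intro z M h s hs
    refine h s fun h1 => hs ?_
    rw [Pi.smul_apply, h1, smul_zero]

/-- the weight -/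
def wtt {N : ℕ} (i : ι → X × Bool) (s : ι → Fin N) : ℕ := ∑ a, if (i a).2 then (s a).val else N - (s a).val

/-- triangular matrices -/
def Tri {N : ℕ} (i : ι → X × Bool) (T : ι → Matrix (Fin N) (Fin N) K) : Prop :=
  ∀ a s t, T a s t ≠ 0 → if (i a).2 then s ≤ t else t ≤ s

theorem tri_ten {N : ℕ} {i : ι → X × Bool} {T : ι → Matrix (Fin N) (Fin N) K} (hT : Tri i T)
    {s t : ι → Fin N} (h : ∏ a, T a (s a) (t a) ≠ 0) : ∀ a, if (i a).2 then s a ≤ t a else t a ≤ s a :=
  fun a => hT a (s a) (t a) fun h0 => h (Finset.prod_eq_zero (Finset.mem_univ a) h0)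

theorem seg_ten {N : ℕ} {i : ι → X × Bool} {T : ι → Matrix (Fin N) (Fin N) K} (hT : Tri i T)
    {M : (ι → Fin N) → K} (hM : M ∈ seg K N i) : ten T M ∈ seg K N i := by
  intro s hs
  obtain ⟨t, -, ht⟩ := Finset.exists_ne_zero_of_sum_ne_zero hs
  have h1 := tri_ten hT (left_ne_zero_of_mul ht)
  have h2 := hM t (right_ne_zero_of_mul ht)
  intro a
  have h3 := h1 a
  refine ⟨fun h => ?_, fun h => ?_⟩
  · rw [if_pos h] at h3
    exact lt_of_le_of_lt h3 ((h2 a).1 h)
  · rw [h] at h3
    simp only [Bool.false_eq_true, if_false] at h3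
    exact le_trans ((h2 a).2 h) h3

/-- eigenvalues of triangular operators -/
theorem eig_ten {N : ℕ} {i : ι → X × Bool} {T : ι → Matrix (Fin N) (Fin N) K} (hT : Tri i T)
    {M : (ι → Fin N) → K} (hM0 : M ≠ 0) {z : K} (hz : ten T M = z • M) :
    ∃ s, M s ≠ 0 ∧ z = ∏ a, T a (s a) (s a) := by
  classical
  obtain ⟨s₀, hs₀⟩ : ∃ s, M s ≠ 0 := by
    by_contra hcon
    push Not at hcon
    exact hM0 (funext hcon)
  obtain ⟨s, hs, hmax⟩ := Finset.exists_max_image (Finset.univ.filter fun s => M s ≠ 0) (wtt i)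
    ⟨s₀, Finset.mem_filter.2 ⟨Finset.mem_univ _, hs₀⟩⟩
  have hs' := (Finset.mem_filter.1 hs).2
  refine ⟨s, hs', ?_⟩
  have h1 := congrFun hz s
  rw [Pi.smul_apply, smul_eq_mul] at h1
  have h2 : ten T M s = (∏ a, T a (s a) (s a)) * M s := by
    show (∑ t : ι → Fin N, (∏ a, T a (s a) (t a)) * M t) = _
    refine Finset.sum_eq_single s (fun t _ hts => ?_) (fun h => absurd (Finset.mem_univ _) h)
    by_contra h3
    have h4 := tri_ten hT (left_ne_zero_of_mul h3)
    have h5 := hmax t (Finset.mem_filter.2 ⟨Finset.mem_univ _, right_ne_zero_of_mul h3⟩)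
    apply hts
    have h6 : ∀ a, (if (i a).2 then (s a).val else N - (s a).val) ≤ if (i a).2 then (t a).val else N - (t a).val := by
      intro a
      have h7 := h4 a
      split_ifs at h7 ⊢ with hb
      · exact h7
      · have : (t a).val ≤ (s a).val := h7
        omega
    have h8 : ∀ a ∈ Finset.univ, (if (i a).2 then (s a).val else N - (s a).val) =
        if (i a).2 then (t a).val else N - (t a).val := by
      refine (Finset.sum_eq_sum_iff_of_le fun a _ => h6 a).1 ?_
      exact le_antisymm (Finset.sum_le_sum fun a _ => h6 a) h5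
    funext a
    have h9 := h8 a (Finset.mem_univ a)
    apply Fin.ext
    have h10 := (t a).isLt
    have h11 := (s a).isLt
    split_ifs at h9 <;> omega
  rw [h2] at h1
  exact (mul_right_cancel₀ hs' h1).symm

/-- the statement for matrices -/
theorem unit_fin {N : ℕ}
    (hcore : ∀ (i : ι → X × Bool) (R : Submodule K ((ι → Fin N) → K)), Stab i R → ¬ R ≤ pairs K (Fin N) i 1 →
      ∃ M ∈ R, M ≠ 0 ∧ ∀ s, M s ≠ 0 → Seg i s)
    (htri : ∀ (G : Matrix (Fin N) (Fin N) K) (d : Fin N → K),
      G.charpoly = ∏ j, (Polynomial.X - Polynomial.C (d j)) →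
      ∃ B : GL (Fin N) K, (∀ s t, t < s → ((B⁻¹ : GL (Fin N) K) * G * B : Matrix (Fin N) (Fin N) K) s t = 0) ∧
        ∀ s, ((B⁻¹ : GL (Fin N) K) * G * B : Matrix (Fin N) (Fin N) K) s s = d s)
    (hpt : ∀ (i : ι → X × Bool) (A : ι → Matrix (Fin N) (Fin N) K),
      (∀ a b, i b = ((i a).1, !(i a).2) → A a * (A b)ᵀ = 1) →
      ∀ M ∈ pairs K (Fin N) i 1, ten A M ∈ pairs K (Fin N) i 1)
    (G G' : X → Matrix (Fin N) (Fin N) K) (w : K) (hw0 : w ≠ 0)
    (hGG : ∀ x, (G x)ᵀ * G' x = w • (1 : Matrix (Fin N) (Fin N) K)) (O : ValuationSubring K)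
    (hw : O.valuation w < 1) (i : ι → X × Bool)
    (hcount : ∀ a, mult i a ≤ ((pr G G' (i a)).charpoly.roots.filter fun z => O.valuation z = 1).card)
    (R : Submodule K ((ι → Fin N) → K)) (hR : Stab i R) (hS : ¬ R ≤ pairs K (Fin N) i 1) (k : ℕ)
    (hst : ∀ M ∈ R, ten (fun a => pr G G' (i a) ^ k) M ∈ R) :
    ∃ M ∈ R, M ≠ 0 ∧ ∃ z : K, O.valuation z = 1 ∧ ten (fun a => pr G G' (i a) ^ k) M = z • M := by
  choose P Q T T' hPQ hQP hT hT' h1 h2 h3 h4 using fun x => exists_base htri hw0 (hGG x) hw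
  obtain ⟨A, hA⟩ : ∃ A : ι → Matrix (Fin N) (Fin N) K, A = fun a => pr P (fun x => (Q x)ᵀ) (i a) := ⟨_, rfl⟩
  obtain ⟨C, hC⟩ : ∃ C : ι → Matrix (Fin N) (Fin N) K, C = fun a => pr Q (fun x => (P x)ᵀ) (i a) := ⟨_, rfl⟩
  obtain ⟨U, hU⟩ : ∃ U : ι → Matrix (Fin N) (Fin N) K, U = fun a => pr T T' (i a) := ⟨_, rfl⟩
  have hAC : ∀ a, A a * C a = 1 := by
    intro a
    rw [hA, hC]
    show pr P _ (i a) * pr Q _ (i a) = 1
    unfold pr
    split_ifs
    · exact hPQ _
    · rw [← Matrix.transpose_mul, hPQ, Matrix.transpose_one]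
  have hCA : ∀ a, C a * A a = 1 := by
    intro a
    rw [hA, hC]
    show pr Q _ (i a) * pr P _ (i a) = 1
    unfold pr
    split_ifs
    · exact hQP _
    · rw [← Matrix.transpose_mul, hQP, Matrix.transpose_one]
  have hUA : ∀ a, U a = A a * pr G G' (i a) * C a := by
    intro a
    rw [hU, hA, hC]
    show pr T T' (i a) = pr P _ (i a) * pr G G' (i a) * pr Q _ (i a)
    unfold pr
    split_ifs
    · exact hT _
    · exact hT' _
  have hpow : ∀ a, A a * pr G G' (i a) ^ k = U a ^ k * A a := by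
    intro a
    have h5 : ∀ k : ℕ, A a * pr G G' (i a) ^ k = U a ^ k * A a := by
      intro k
      induction k with
      | zero => rw [pow_zero, pow_zero, Matrix.mul_one, Matrix.one_mul]
      | succ k ih =>
        rw [pow_succ, ← Matrix.mul_assoc, ih, pow_succ (U a), Matrix.mul_assoc, Matrix.mul_assoc, hUA]
        simp only [Matrix.mul_assoc]
        rw [hCA, Matrix.mul_one]
    exact h5 k
  have hCAM : ∀ M : (ι → Fin N) → K, ten C (ten A M) = M := by
    intro M
    rw [← ten_mul]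
    have : (fun a => C a * A a) = fun _ => (1 : Matrix (Fin N) (Fin N) K) := funext hCA
    rw [this, ten_one]
  have hACM : ∀ M : (ι → Fin N) → K, ten A (ten C M) = M := by
    intro M
    rw [← ten_mul]
    have : (fun a => A a * C a) = fun _ => (1 : Matrix (Fin N) (Fin N) K) := funext hAC
    rw [this, ten_one]
  have hcomm : ∀ M : (ι → Fin N) → K, ten A (ten (fun a => pr G G' (i a) ^ k) M) =
      ten (fun a => U a ^ k) (ten A M) := by
    intro M
    rw [← ten_mul, ← ten_mul]
    congr 1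
    funext a
    exact hpow a
  -- the image
  obtain ⟨R', hR'⟩ : ∃ R' : Submodule K ((ι → Fin N) → K), R' = R.map (tenL A) := ⟨_, rfl⟩
  have hmem : ∀ M, M ∈ R' ↔ ten C M ∈ R := by
    intro M
    rw [hR', Submodule.mem_map]
    constructor
    · rintro ⟨M₀, hM₀, rfl⟩
      show ten C (ten A M₀) ∈ R
      rw [hCAM]
      exact hM₀
    · intro h
      exact ⟨ten C M, h, hACM M⟩
  have hRS : Stab i R' := by
    intro Z hZ M hM
    rw [hmem] at hM ⊢
    have h5 := hR (fun x => Q x * Z x * P x) (fun x => by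
      rw [Matrix.det_mul, Matrix.det_mul, hZ, mul_one, ← Matrix.det_mul, hQP, Matrix.det_one]) _ hM
    have h6 : ten (fun a => pact (Q (i a).1 * Z (i a).1 * P (i a).1) (i a).2) (ten C M) =
        ten C (ten (fun a => pact (Z (i a).1) (i a).2) M) := by
      rw [← ten_mul, ← ten_mul]
      congr 1
      funext a
      have h7 : pact (Q (i a).1 * Z (i a).1 * P (i a).1) (i a).2 = C a * pact (Z (i a).1) (i a).2 * A a := by
        rw [hC, hA]
        show _ = pr Q _ (i a) * _ * pr P _ (i a)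
        unfold pr pact
        split_ifs
        · rfl
        · have h8 : (Q (i a).1 * Z (i a).1 * P (i a).1).adjugate =
              Q (i a).1 * (Z (i a).1).adjugate * P (i a).1 := by
            have e1 : (Q (i a).1 * Z (i a).1 * P (i a).1) *
                (Q (i a).1 * (Z (i a).1).adjugate * P (i a).1) = 1 := by
              calc _ = Q (i a).1 * (Z (i a).1 * (P (i a).1 * Q (i a).1) * (Z (i a).1).adjugate) * P (i a).1 := by
                    simp only [Matrix.mul_assoc]
                _ = 1 := by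
                    rw [hPQ, Matrix.mul_one, Matrix.mul_adjugate, hZ, one_smul, Matrix.mul_one, hQP]
            have e2 : (Q (i a).1 * Z (i a).1 * P (i a).1).adjugate *
                (Q (i a).1 * Z (i a).1 * P (i a).1) = 1 := by
              rw [Matrix.adjugate_mul, Matrix.det_mul, Matrix.det_mul, hZ, mul_one, ← Matrix.det_mul, hQP,
                Matrix.det_one, one_smul]
            calc _ = (Q (i a).1 * Z (i a).1 * P (i a).1).adjugate * ((Q (i a).1 * Z (i a).1 * P (i a).1) *
                (Q (i a).1 * (Z (i a).1).adjugate * P (i a).1)) := by rw [e1, Matrix.mul_one]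
              _ = _ := by rw [← Matrix.mul_assoc, e2, Matrix.one_mul]
          rw [h8, Matrix.transpose_mul, Matrix.transpose_mul, Matrix.mul_assoc]
      rw [h7, Matrix.mul_assoc, hAC, Matrix.mul_one]
    rw [← h6]
    exact h5
  have hRn : ¬ R' ≤ pairs K (Fin N) i 1 := by
    intro hle
    apply hS
    intro M hM
    have h5 : ten A M ∈ R' := by
      rw [hmem, hCAM]
      exact hM
    have h6 := hpt i C (fun a b hab => by
      rw [hC]
      show pr Q _ (i a) * (pr Q _ (i b))ᵀ = 1
      rw [hab]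
      unfold pr
      cases hb : (i a).2
      · simp only [Bool.false_eq_true, if_false, Bool.not_false, if_true]
        rw [← Matrix.transpose_mul, hQP, Matrix.transpose_one]
      · simp only [if_true, Bool.not_true, Bool.false_eq_true, if_false, Matrix.transpose_transpose]
        exact hQP _) _ (hle h5)
    rwa [hCAM] at h6
  obtain ⟨M₁, hM₁, hM₁0, hM₁s⟩ := hcore i R' hRS hRn
  -- the operator on the tensors in `R'` supported on the segments
  have hTri : Tri i (fun a => U a ^ k) := by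
    intro a s t hst
    have h5 : U a ^ k = if (i a).2 then T (i a).1 ^ k else T' (i a).1 ^ k := by
      rw [hU]
      show pr T T' (i a) ^ k = _
      unfold pr
      split_ifs <;> rfl
    change (U a ^ k) s t ≠ 0 at hst
    rw [h5] at hst
    split_ifs at hst ⊢ with hb
    · by_contra h6
      exact hst ((tri_pow (h1 (i a).1) k).1 s t (not_le.1 h6))
    · by_contra h6
      apply hst
      have h7 := (tri_pow (T := (T' (i a).1)ᵀ) (fun s t hts => h2 (i a).1 t s hts) k).1 t s (not_le.1 h6)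
      rw [← Matrix.transpose_pow] at h7
      exact h7
  obtain ⟨W, hW⟩ : ∃ W : Submodule K ((ι → Fin N) → K), W = R' ⊓ seg K N i := ⟨_, rfl⟩
  have hWst : ∀ M ∈ W, tenL (fun a => U a ^ k) M ∈ W := by
    intro M hM
    rw [hW, Submodule.mem_inf] at hM ⊢
    refine ⟨?_, seg_ten hTri hM.2⟩
    show ten (fun a => U a ^ k) M ∈ R'
    have h5 := (hmem M).1 hM.1
    have h6 : ten (fun a => U a ^ k) M = ten A (ten (fun a => pr G G' (i a) ^ k) (ten C M)) := by
      rw [hcomm, hACM]
    rw [h6, hmem, hCAM]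
    exact hst _ h5
  have hWn : Nontrivial W := by
    refine ⟨⟨⟨M₁, by rw [hW]; exact ⟨hM₁, hM₁s⟩⟩, 0, fun h => hM₁0 ?_⟩⟩
    exact congrArg Subtype.val h
  obtain ⟨z, hz⟩ := Module.End.exists_eigenvalue ((tenL (fun a => U a ^ k)).restrict hWst)
  obtain ⟨M₂, hM₂⟩ := hz.exists_hasEigenvector
  have h5 : ten (fun a => U a ^ k) (M₂ : (ι → Fin N) → K) = z • (M₂ : (ι → Fin N) → K) :=
    congrArg Subtype.val hM₂.apply_eq_smul
  have h6 : (M₂ : (ι → Fin N) → K) ≠ 0 := fun h => hM₂.2 (Subtype.ext h)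
  have h7 : (M₂ : (ι → Fin N) → K) ∈ R' ∧ (M₂ : (ι → Fin N) → K) ∈ seg K N i := by
    have h8 : (M₂ : (ι → Fin N) → K) ∈ R' ⊓ seg K N i := hW ▸ M₂.2
    exact Submodule.mem_inf.1 h8
  obtain ⟨s, hs, hzs⟩ := eig_ten hTri h6 h5
  have hseg := h7.2 s hs
  have hval : O.valuation z = 1 := by
    rw [hzs, map_prod]
    refine Finset.prod_eq_one fun a _ => ?_
    have h8 : U a ^ k = if (i a).2 then T (i a).1 ^ k else T' (i a).1 ^ k := by
      rw [hU]
      show pr T T' (i a) ^ k = _
      unfold pr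
      split_ifs <;> rfl
    have h9 := hcount a
    rw [h8]
    cases hb : (i a).2
    · simp only [Bool.false_eq_true, if_false]
      have h10 := (tri_pow (T := (T' (i a).1)ᵀ) (fun s t hts => h2 (i a).1 t s hts) k).2 (s a)
      rw [← Matrix.transpose_pow] at h10
      have h11 : (T' (i a).1 ^ k) (s a) (s a) = T' (i a).1 (s a) (s a) ^ k := h10
      rw [h11, map_pow, h4, one_pow]
      unfold pr at h9
      rw [hb] at h9
      simp only [Bool.false_eq_true, if_false] at h9
      exact le_trans (Nat.sub_le_sub_left h9 N) ((hseg a).2 hb)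
    · simp only [if_true]
      rw [(tri_pow (h1 (i a).1) k).2 (s a), map_pow, h3, one_pow]
      unfold pr at h9
      rw [hb] at h9
      simp only [if_true] at h9
      exact lt_of_lt_of_le ((hseg a).1 hb) h9
  refine ⟨ten C M₂, (hmem _).1 h7.1, fun h => h6 ?_, z, hval, ?_⟩
  · rw [← hACM (M₂ : (ι → Fin N) → K), h]
    exact map_zero (tenL A)
  · have h8 : ten A (ten (fun a => pr G G' (i a) ^ k) (ten C (M₂ : (ι → Fin N) → K))) = z • (M₂ : (ι → Fin N) → K) := by
      rw [hcomm, hACM, h5]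
    have h9 := congrArg (ten C) h8
    rw [hCAM] at h9
    rw [h9]
    exact map_smul (tenL C) z (M₂ : (ι → Fin N) → K)

end main

end Pool.Agent.Helper40.KT
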