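import Pool.Agent.Helper40.KT.UnitFin
import Pool.Agent.Helper61.KT.Reindex
import Pool.Agent.Helper35.KT.Core
import Pool.Agent.Helper9.KT.Pairs

/-!
K'', block B7b: `exists_unit_ten` over B7a `triang` (given as a hypothesis).
-/

set_option autoImplicit false

open Matrix H77MT Pool.Agent.Helper79.KN Pool.Agent.Helper33.KN Pool.Agent.Helper73.KT

namespace Pool.Agent.Helper40.KT

variable {X K ι : Type} [Fintype X] [DecidableEq X] [Field K] [CharZero K] [IsAlgClosed K] [Fintype ι]
  [DecidableEq ι]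

theorem unitFin_of (htri : ∀ {N : ℕ} (G : Matrix (Fin N) (Fin N) K) (d : Fin N → K),
      G.charpoly = ∏ j, (Polynomial.X - Polynomial.C (d j)) →
      ∃ B : GL (Fin N) K, (∀ s t, t < s → ((B⁻¹ : GL (Fin N) K) * G * B : Matrix (Fin N) (Fin N) K) s t = 0) ∧
        ∀ s, ((B⁻¹ : GL (Fin N) K) * G * B : Matrix (Fin N) (Fin N) K) s s = d s) :
    Pool.Agent.Helper61.KT.UnitFin X K ι := by
  intro N hN G G' w hw0 hGG O hw i hcount R hR hS k hst
  exact unit_fin (fun i R hR hS => Pool.Agent.Helper73.KT.core hN i hR hS) (fun G d h => htri G d h)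
    (fun i A hA => Pool.Agent.Helper9.KT.pairs_ten i 1 A hA) G G' w hw0 hGG O hw i hcount R hR hS k hst

end Pool.Agent.Helper40.KT
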